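import Mathlib
import Pool.Agent.H7.Coset.Kernel

/-!
Expansion of the powers of the lazy polynomial `(1 + x) / 2` in Chebyshev polynomials: the
coefficients are nonnegative and have Gaussian tails.
-/

set_option autoImplicit false

namespace Pool.Agent.H32.Cov

open Polynomial Pool.Agent.H7.Coset

/-- The lazy polynomial. -/
noncomputable def ll : ℝ[X] := C (1 / 2) * (1 + X)

theorem tt_natDegree (n : ℕ) : (tt n).natDegree ≤ n := by
  induction n using Nat.twoStepInduction with
  | zero => simp [tt]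
  | one => simp [tt]
  | more n ih1 ih2 =>
    simp only [tt]
    refine (natDegree_sub_le _ _).trans (max_le ?_ (by omega))
    refine natDegree_mul_le.trans ?_
    have : (2 * X : ℝ[X]).natDegree ≤ 1 := by compute_degree
    omega

theorem tt_cosh (n : ℕ) (s : ℝ) : (tt n).eval (Real.cosh s) = Real.cosh (n * s) := by
  induction n using Nat.twoStepInduction with
  | zero => simp [tt]
  | one => simp [tt]
  | more n ih1 ih2 =>
    simp only [tt, eval_sub, eval_mul, eval_X, eval_ofNat, ih1, ih2]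
    push_cast
    have h1 : ((n : ℝ) + 1 + 1) * s = ((n : ℝ) + 1) * s + s := by ring
    have h2 : (n : ℝ) * s = ((n : ℝ) + 1) * s - s := by ring
    rw [show ((n : ℝ) + 2) * s = ((n : ℝ) + 1) * s + s by ring, h2, Real.cosh_add, Real.cosh_sub]
    ring

/-- `p` is a nonnegative combination of the first Chebyshev polynomials. -/
def NN (n : ℕ) (p : ℝ[X]) : Prop :=
  ∃ a : ℕ → ℝ, (∀ j, 0 ≤ a j) ∧ p = ∑ j ∈ Finset.range (n + 1), C (a j) * tt j

theorem NN.zero (n : ℕ) : NN n 0 := ⟨fun _ => 0, fun _ => le_rfl, by simp⟩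

theorem NN.add {n : ℕ} {p q : ℝ[X]} (hp : NN n p) (hq : NN n q) : NN n (p + q) := by
  obtain ⟨a, ha, rfl⟩ := hp
  obtain ⟨b, hb, rfl⟩ := hq
  refine ⟨fun j => a j + b j, fun j => add_nonneg (ha j) (hb j), ?_⟩
  rw [← Finset.sum_add_distrib]
  exact Finset.sum_congr rfl fun j _ => by rw [C_add, add_mul]

theorem NN.smul {n : ℕ} {p : ℝ[X]} (hp : NN n p) {c : ℝ} (hc : 0 ≤ c) : NN n (C c * p) := by
  obtain ⟨a, ha, rfl⟩ := hp
  refine ⟨fun j => c * a j, fun j => mul_nonneg hc (ha j), ?_⟩
  rw [Finset.mul_sum]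
  exact Finset.sum_congr rfl fun j _ => by rw [C_mul, mul_assoc]

theorem NN.tt {n j : ℕ} (h : j ≤ n) : NN n (tt j) := by
  classical
  refine ⟨fun i => if i = j then 1 else 0, fun i => by dsimp only; split_ifs <;> norm_num, ?_⟩
  rw [Finset.sum_eq_single j]
  · simp
  · intro i _ hij
    simp only [if_neg hij, C_0, zero_mul]
  · intro h1
    exact absurd (Finset.mem_range.2 (by omega)) h1

theorem NN.sum {n : ℕ} {s : Finset ℕ} {f : ℕ → ℝ[X]} (h : ∀ j ∈ s, NN n (f j)) :
    NN n (∑ j ∈ s, f j) := by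
  classical
  induction s using Finset.induction_on with
  | empty => simpa using NN.zero n
  | insert j s hj ih =>
    rw [Finset.sum_insert hj]
    exact (h j (Finset.mem_insert_self _ _)).add
      (ih fun i hi => h i (Finset.mem_insert_of_mem hi))

theorem ll_tt (n j : ℕ) (h : j ≤ n) : NN (n + 1) (ll * tt j) := by
  cases j with
  | zero =>
    have e : ll * Pool.Agent.H7.Coset.tt 0 = C (1 / 2) * Pool.Agent.H7.Coset.tt 0 +
        C (1 / 2) * Pool.Agent.H7.Coset.tt 1 := by
      simp only [ll, Pool.Agent.H7.Coset.tt]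
      ring
    rw [e]
    exact ((NN.tt (by omega)).smul (by norm_num)).add ((NN.tt (by omega)).smul (by norm_num))
  | succ j =>
    have h2 : Pool.Agent.H7.Coset.tt (j + 2) =
      2 * X * Pool.Agent.H7.Coset.tt (j + 1) - Pool.Agent.H7.Coset.tt j := rfl
    have e : ll * Pool.Agent.H7.Coset.tt (j + 1) = C (1 / 4) * Pool.Agent.H7.Coset.tt j +
        (C (1 / 2) * Pool.Agent.H7.Coset.tt (j + 1) +
        C (1 / 4) * Pool.Agent.H7.Coset.tt (j + 2)) := by
      rw [h2]
      have e1 : (C (1 / 2) : ℝ[X]) = C (1 / 4) * 2 := by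
        have : (2 : ℝ[X]) = C 2 := rfl
        rw [this, ← C_mul]
        norm_num
      simp only [ll]
      rw [e1]
      ring
    rw [e]
    exact ((NN.tt (by omega)).smul (by norm_num)).add
      (((NN.tt (by omega)).smul (by norm_num)).add ((NN.tt (by omega)).smul (by norm_num)))

theorem ll_pow (n : ℕ) : NN n (ll ^ n) := by
  induction n with
  | zero =>
    have := NN.tt (n := 0) (j := 0) le_rfl
    simpa [Pool.Agent.H7.Coset.tt] using this
  | succ n ih =>
    obtain ⟨a, ha, h⟩ := ih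
    rw [pow_succ', h, Finset.mul_sum]
    refine NN.sum fun j hj => ?_
    rw [mul_left_comm]
    exact (ll_tt n j (by have := Finset.mem_range.1 hj; omega)).smul (ha j)

/-- Expansion of the lazy powers with a Gaussian tail. -/
theorem ll_expand (n r : ℕ) (hn : 0 < n) : ∃ a : ℕ → ℝ, (∀ j, 0 ≤ a j) ∧
    ll ^ n = ∑ j ∈ Finset.range (n + 1), C (a j) * tt j ∧
    ∑ j ∈ (Finset.range (n + 1)).filter (fun j => r < j), a j ≤
      2 * Real.exp (-((r : ℝ) ^ 2 / n)) := by
  obtain ⟨a, ha, h⟩ := ll_pow n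
  refine ⟨a, ha, h, ?_⟩
  have hn' : (0 : ℝ) < n := by exact_mod_cast hn
  set s : ℝ := 2 * r / n with hs
  have hs0 : 0 ≤ s := by positivity
  have h1 : ((1 + Real.cosh s) / 2) ^ n =
      ∑ j ∈ Finset.range (n + 1), a j * Real.cosh (j * s) := by
    have h2 := congrArg (fun p => p.eval (Real.cosh s)) h
    simp only [ll, eval_pow, eval_mul, eval_add, eval_C, eval_one, eval_X, eval_finsetSum,
      tt_cosh] at h2
    rw [← h2]
    congr 1
    ring
  have h3 : (1 + Real.cosh s) / 2 ≤ Real.exp (s ^ 2 / 4) := by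
    have h4 : (1 + Real.cosh s) / 2 = Real.cosh (s / 2) ^ 2 := by
      have h5 : Real.cosh s = Real.cosh (2 * (s / 2)) := by ring_nf
      have h6 := Real.cosh_sq (s / 2)
      rw [h5, Real.cosh_two_mul]
      linarith
    rw [h4]
    have h5 := Real.cosh_le_exp_half_sq (s / 2)
    have h6 := Real.cosh_pos (s / 2)
    calc Real.cosh (s / 2) ^ 2 ≤ Real.exp ((s / 2) ^ 2 / 2) ^ 2 := by gcongr
      _ = Real.exp (s ^ 2 / 4) := by
        rw [← Real.exp_nat_mul]
        congr 1
        push_cast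
        ring
  have h7 : ∑ j ∈ Finset.range (n + 1), a j * Real.cosh (j * s) ≤ Real.exp (n * (s ^ 2 / 4)) := by
    rw [← h1, Real.exp_nat_mul]
    have := Real.cosh_pos s
    gcongr
  have h8 : (∑ j ∈ (Finset.range (n + 1)).filter (fun j => r < j), a j) *
      (Real.exp (r * s) / 2) ≤ Real.exp (n * (s ^ 2 / 4)) := by
    refine le_trans ?_ h7
    rw [Finset.sum_mul]
    refine le_trans (Finset.sum_le_sum (g := fun j => a j * Real.cosh (j * s)) fun j hj => ?_)
      (Finset.sum_le_sum_of_subset_of_nonneg (Finset.filter_subset _ _) fun j _ _ =>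
        mul_nonneg (ha j) (Real.cosh_pos _).le)
    have hj' : r < j := (Finset.mem_filter.1 hj).2
    have hrj : (r : ℝ) ≤ j := by exact_mod_cast hj'.le
    refine mul_le_mul_of_nonneg_left ?_ (ha j)
    have h9 : Real.exp (r * s) ≤ Real.exp (j * s) := by
      apply Real.exp_le_exp.2
      gcongr
    have h10 := Real.exp_pos (-(j * s))
    rw [Real.cosh_eq]
    linarith
  have h11 : (r : ℝ) * s = 2 * (r ^ 2 / n) := by rw [hs]; field_simp
  have h12 : (n : ℝ) * (s ^ 2 / 4) = r ^ 2 / n := by rw [hs]; field_simp; ring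
  rw [h11, h12] at h8
  have h13 : Real.exp (2 * ((r : ℝ) ^ 2 / n)) = Real.exp (r ^ 2 / n) * Real.exp (r ^ 2 / n) := by
    rw [← Real.exp_add]
    ring_nf
  rw [h13] at h8
  have hE := Real.exp_pos ((r : ℝ) ^ 2 / n)
  have h14 : (∑ j ∈ (Finset.range (n + 1)).filter (fun j => r < j), a j) *
      Real.exp ((r : ℝ) ^ 2 / n) ≤ 2 := by
    by_contra hcon
    push Not at hcon
    have := mul_lt_mul_of_pos_right hcon hE
    nlinarith
  rw [Real.exp_neg, ← div_eq_mul_inv, le_div_iff₀ hE]
  exact h14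

end Pool.Agent.H32.Cov
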