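import Mathlib

/-!
Elementary combinatorics: truncated inclusion-exclusion and elementary symmetric sums.
-/

set_option autoImplicit false

namespace Pool.Agent.H32.Cov

open Finset

theorem alt_choose (p m : ℕ) :
    ∑ s ∈ range (m + 1), (-1 : ℝ) ^ s * ((p + 1).choose s : ℝ) = (-1) ^ m * (p.choose m : ℝ) := by
  induction m with
  | zero => simp
  | succ m ih =>
    rw [sum_range_succ, ih, Nat.choose_succ_succ]
    push_cast
    ring

/-- The truncated alternating sum over the subsets of `P`. -/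
noncomputable def VV {α : Type*} (m : ℕ) (P : Finset α) : ℝ :=
  ∑ J ∈ P.powerset, if J.card ≤ m then (-1 : ℝ) ^ J.card else 0

theorem VV_eq {α : Type*} (m : ℕ) (P : Finset α) :
    VV m P = ∑ s ∈ range (m + 1), (-1 : ℝ) ^ s * (P.card.choose s : ℝ) := by
  have h1 := sum_powerset_apply_card (fun s => if s ≤ m then (-1 : ℝ) ^ s else 0) (x := P)
  unfold VV
  rw [h1]
  have h2 : ∀ s, P.card.choose s • (if s ≤ m then (-1 : ℝ) ^ s else 0) =
      if s ≤ m then (-1 : ℝ) ^ s * (P.card.choose s : ℝ) else 0 := by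
    intro s
    split_ifs
    · rw [nsmul_eq_mul, mul_comm]
    · simp
  rw [sum_congr rfl fun s _ => h2 s]
  have h3 : ∑ s ∈ range (m + 1), (-1 : ℝ) ^ s * (P.card.choose s : ℝ) =
      ∑ s ∈ range (m + 1), if s ≤ m then (-1 : ℝ) ^ s * (P.card.choose s : ℝ) else 0 := by
    refine sum_congr rfl fun s hs => ?_
    rw [if_pos (by have := mem_range.1 hs; omega)]
  rw [h3]
  rcases le_total (P.card + 1) (m + 1) with h | h
  · refine sum_subset (range_subset_range.2 h) fun s _ hs => ?_
    have : P.card < s := by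
      by_contra hcon
      exact hs (mem_range.2 (by omega))
    rw [Nat.choose_eq_zero_of_lt this]
    simp
  · refine (sum_subset (range_subset_range.2 h) fun s _ hs => ?_).symm
    have : ¬ s ≤ m := fun hcon => hs (mem_range.2 (by omega))
    rw [if_neg this]

theorem VV_ge {α : Type*} (t : ℕ) (P : Finset α) : 1 - (P.card : ℝ) ≤ VV (2 * t) P := by
  rw [VV_eq]
  rcases Nat.eq_zero_or_pos P.card with h | h
  · rw [h, sum_range_succ']
    simp
  · obtain ⟨p, hp⟩ : ∃ p, P.card = p + 1 := ⟨P.card - 1, by omega⟩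
    rw [hp, alt_choose, pow_mul]
    push_cast
    have : (0 : ℝ) ≤ (p.choose (2 * t) : ℝ) := by positivity
    have h2 : (0 : ℝ) ≤ p := by positivity
    norm_num
    linarith

theorem VV_zero {α : Type*} (m : ℕ) (P : Finset α) (h1 : 1 ≤ P.card) (h2 : P.card ≤ m) :
    VV m P = 0 := by
  rw [VV_eq]
  obtain ⟨p, hp⟩ : ∃ p, P.card = p + 1 := ⟨P.card - 1, by omega⟩
  rw [hp, alt_choose, Nat.choose_eq_zero_of_lt (by omega)]
  simp

/-- Truncated elementary symmetric sums. -/
noncomputable def EE {α : Type*} (b : α → ℝ) (m : ℕ) (P : Finset α) : ℝ :=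
  ∑ J ∈ P.powerset, if J.card ≤ m then ∏ i ∈ J, b i else 0

theorem EE_le {α : Type*} (b : α → ℝ) (hb : ∀ i, 0 ≤ b i) (P : Finset α) :
    ∀ m, EE b m P ≤ (1 + ∑ i ∈ P, b i) ^ m := by
  classical
  induction P using Finset.induction_on with
  | empty => intro m; simp [EE]
  | insert a s ha ih =>
    intro m
    have hB : 0 ≤ ∑ i ∈ s, b i := sum_nonneg fun i _ => hb i
    cases m with
    | zero =>
      unfold EE
      have : ∀ J ∈ (insert a s).powerset, (if J.card ≤ 0 then ∏ i ∈ J, b i else 0) =
          if J = ∅ then 1 else 0 := by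
        intro J _
        by_cases hJ : J = ∅
        · subst hJ; simp
        · rw [if_neg (by have := card_pos.2 (nonempty_iff_ne_empty.2 hJ); omega), if_neg hJ]
      rw [sum_congr rfl this]
      simp
    | succ m =>
      have h1 : EE b (m + 1) (insert a s) = EE b (m + 1) s + b a * EE b m s := by
        unfold EE
        rw [sum_powerset_insert ha, mul_sum]
        congr 1
        refine sum_congr rfl fun J hJ => ?_
        have haJ : a ∉ J := fun h => ha (mem_powerset.1 hJ h)
        rw [card_insert_of_notMem haJ, prod_insert haJ]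
        by_cases h : J.card ≤ m
        · rw [if_pos (by omega), if_pos h]
        · rw [if_neg (by omega), if_neg h, mul_zero]
      rw [h1, sum_insert ha]
      have h2 := ih (m + 1)
      have h3 := mul_le_mul_of_nonneg_left (ih m) (hb a)
      calc EE b (m + 1) s + b a * EE b m s
          ≤ (1 + ∑ i ∈ s, b i) ^ (m + 1) + b a * (1 + ∑ i ∈ s, b i) ^ m := add_le_add h2 h3
        _ = (1 + ∑ i ∈ s, b i) ^ m * (1 + (b a + ∑ i ∈ s, b i)) := by ring
        _ ≤ (1 + (b a + ∑ i ∈ s, b i)) ^ m * (1 + (b a + ∑ i ∈ s, b i)) := by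
            have := hb a
            gcongr
            linarith
        _ = _ := by ring

theorem EE_le_prod {α : Type*} (b : α → ℝ) (hb : ∀ i, 0 ≤ b i) (P : Finset α) (m : ℕ) :
    EE b m P ≤ ∏ i ∈ P, (1 + b i) := by
  classical
  rw [prod_one_add]
  refine sum_le_sum fun J _ => ?_
  split_ifs
  · exact le_rfl
  · exact prod_nonneg fun i _ => hb i

/-- Jensen. -/
theorem log_prod_le {k : ℕ} (hk : 0 < k) (n : Fin k → ℕ) :
    Real.log (∏ i, (1 + Real.sqrt (n i))) ≤
      k * Real.log (1 + Real.sqrt ((∑ i, n i : ℕ) / k)) := by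
  have hk' : (0 : ℝ) < k := by exact_mod_cast hk
  set β := Real.sqrt ((∑ i, n i : ℕ) / k) with hβ
  have hβ0 : 0 ≤ β := Real.sqrt_nonneg _
  rw [Real.log_prod (fun i _ => by positivity)]
  have h1 : ∀ i, Real.log (1 + Real.sqrt (n i)) ≤
      Real.log (1 + β) + (Real.sqrt (n i) - β) / (1 + β) := by
    intro i
    have hpos : (0 : ℝ) < (1 + Real.sqrt (n i)) / (1 + β) := by positivity
    have h2 := Real.log_le_sub_one_of_pos hpos
    rw [Real.log_div (by positivity) (by positivity)] at h2
    have h3 : (1 + Real.sqrt (n i)) / (1 + β) - 1 = (Real.sqrt (n i) - β) / (1 + β) := by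
      field_simp
      ring
    linarith
  have h2 : ∑ i, Real.sqrt (n i) ≤ k * β := by
    have h3 : (∑ i, Real.sqrt (n i)) ^ 2 ≤ k * ∑ i, Real.sqrt (n i) ^ 2 := by
      have := sq_sum_le_card_mul_sum_sq (s := (Finset.univ : Finset (Fin k)))
        (f := fun i => Real.sqrt (n i))
      simpa using this
    have h4 : ∑ i, Real.sqrt (n i) ^ 2 = (∑ i, n i : ℕ) := by
      push_cast
      exact sum_congr rfl fun i _ => Real.sq_sqrt (by positivity)
    rw [h4] at h3
    have h5 : (k * β) ^ 2 = k * ((∑ i, n i : ℕ) : ℝ) := by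
      rw [mul_pow, hβ, Real.sq_sqrt (by positivity)]
      field_simp
    rw [← h5] at h3
    exact (abs_le_of_sq_le_sq' h3 (by positivity)).2
  calc ∑ i, Real.log (1 + Real.sqrt (n i))
      ≤ ∑ i, (Real.log (1 + β) + (Real.sqrt (n i) - β) / (1 + β)) :=
        sum_le_sum fun i _ => h1 i
    _ = k * Real.log (1 + β) + (∑ i, Real.sqrt (n i) - k * β) / (1 + β) := by
        rw [sum_add_distrib, ← sum_div, sum_sub_distrib]
        simp
    _ ≤ k * Real.log (1 + β) := by
        have : (∑ i, Real.sqrt (n i) - k * β) / (1 + β) ≤ 0 :=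
          div_nonpos_of_nonpos_of_nonneg (by linarith) (by positivity)
        linarith

end Pool.Agent.H32.Cov
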