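import Mathlib
import Pool.Agent.H32.Cov.Cheb

/-!
Return probabilities of the lazy walk on an infinite Schreier graph, through the Nash inequality,
and the Chebyshev coefficients of a finitely supported function.
-/

set_option autoImplicit false

namespace Pool.Agent.H32.Cov

open Polynomial Pool.Agent.H7.Coset

section Op

variable {G Ω : Type*} [Group G] [MulAction G Ω]

/-- The moment functional. -/
noncomputable def mom (S : Finset G) (h : Ω →₀ ℝ) (p : ℝ[X]) : ℝ := ip (aeval (avg S) p h) h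

theorem mom_add (S : Finset G) (h : Ω →₀ ℝ) (p q : ℝ[X]) :
    mom S h (p + q) = mom S h p + mom S h q := by
  simp only [mom, map_add, LinearMap.add_apply]

theorem mom_sub (S : Finset G) (h : Ω →₀ ℝ) (p q : ℝ[X]) :
    mom S h (p - q) = mom S h p - mom S h q := by
  simp only [mom, map_sub, LinearMap.sub_apply]

theorem mom_C_mul (S : Finset G) (h : Ω →₀ ℝ) (c : ℝ) (p : ℝ[X]) :
    mom S h (C c * p) = c * mom S h p := by
  simp only [mom, map_mul, aeval_C, Module.End.mul_apply, Module.algebraMap_end_apply, map_smul,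
    LinearMap.smul_apply, smul_eq_mul]

theorem mom_mul (S : Finset G) (h : Ω →₀ ℝ) (p q : ℝ[X]) :
    mom S h (p * q) = ip (aeval (avg S) q h) (aeval (avg S) p h) := ip_aeval_mul S p q h

theorem mom_sq_nonneg (S : Finset G) (h : Ω →₀ ℝ) (p : ℝ[X]) : 0 ≤ mom S h (p * p) := by
  rw [mom_mul]
  exact ip_self_nonneg _

theorem mom_one_sub (S : Finset G) (h : Ω →₀ ℝ) (p : ℝ[X]) :
    0 ≤ mom S h ((1 - X ^ 2) * (p * p)) := by
  have e : (1 - X ^ 2) * (p * p) = p * p - (X * p) * (X * p) := by ring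
  rw [e, mom_sub, mom_mul, mom_mul, aeval_mul_apply, aeval_X]
  have := ip_avg_self_le S (aeval (avg S) p h)
  linarith

theorem mom_one_add (S : Finset G) (h : Ω →₀ ℝ) (p : ℝ[X]) :
    0 ≤ mom S h ((1 + X) * (p * p)) := by
  have e : (1 + X) * (p * p) = p * p + p * (X * p) := by ring
  rw [e, mom_add, mom_mul, mom_mul, aeval_mul_apply, aeval_X]
  have := neg_ip_avg_le S (aeval (avg S) p h)
  linarith

/-- The energies of the lazy walk. -/
noncomputable def en (S : Finset G) (h : Ω →₀ ℝ) (i : ℕ) : ℝ :=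
  mom S h ((1 - ll) * (ll ^ i * ll ^ i))

theorem one_sub_ll : (1 - ll : ℝ[X]) = C (1 / 2) * (1 - X) := by
  have e1 : (1 : ℝ[X]) = C (1 / 2) + C (1 / 2) := by
    rw [← C_add]
    norm_num
  simp only [ll]
  linear_combination e1

theorem en_anti (S : Finset G) (h : Ω →₀ ℝ) (i : ℕ) : en S h (i + 1) ≤ en S h i := by
  have e : (1 - ll) * (ll ^ i * ll ^ i) - (1 - ll) * (ll ^ (i + 1) * ll ^ (i + 1)) =
      ((1 - ll) * ll ^ i) * ((1 - ll) * ll ^ i) +
        C (1 / 2) * ((1 + X) * (((1 - ll) * ll ^ i) * ((1 - ll) * ll ^ i))) := by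
    have : (C (1 / 2) : ℝ[X]) * (1 + X) = ll := rfl
    rw [← mul_assoc (C (1 / 2)), this]
    ring
  have h1 := mom_sq_nonneg S h ((1 - ll) * ll ^ i)
  have h2 := mom_one_add S h ((1 - ll) * ll ^ i)
  have h3 : en S h i - en S h (i + 1) = _ := (mom_sub S h _ _).symm
  rw [e, mom_add, mom_C_mul] at h3
  linarith

theorem en_le (S : Finset G) (h : Ω →₀ ℝ) (i : ℕ) :
    en S h i ≤ mom S h (ll ^ i * ll ^ i) - mom S h (ll ^ (i + 1) * ll ^ (i + 1)) := by
  have e : ll ^ i * ll ^ i - ll ^ (i + 1) * ll ^ (i + 1) - (1 - ll) * (ll ^ i * ll ^ i) =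
      C (1 / 4) * ((1 - X ^ 2) * (ll ^ i * ll ^ i)) := by
    have e1 : ll * (1 - ll) = C (1 / 4) * (1 - X ^ 2) := by
      rw [one_sub_ll, ll]
      have : (C (1 / 4) : ℝ[X]) = C (1 / 2) * C (1 / 2) := by rw [← C_mul]; norm_num
      rw [this]
      ring
    linear_combination (ll ^ i * ll ^ i) * e1
  have h1 := mom_one_sub S h (ll ^ i)
  have h3 := mom_C_mul S h (1 / 4) ((1 - X ^ 2) * (ll ^ i * ll ^ i))
  rw [← e, mom_sub, mom_sub] at h3
  unfold en
  linarith

theorem en_bound (S : Finset G) (h : Ω →₀ ℝ) (k : ℕ) : (k + 1) * en S h k ≤ ip h h := by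
  have h1 : ∀ k : ℕ, ∑ i ∈ Finset.range (k + 1), en S h i ≤
      ip h h - mom S h (ll ^ (k + 1) * ll ^ (k + 1)) := by
    intro k
    induction k with
    | zero =>
      have h2 := en_le S h 0
      have h3 : mom S h (ll ^ 0 * ll ^ 0) = ip h h := by simp [mom]
      rw [h3] at h2
      simpa using h2
    | succ k ih =>
      rw [Finset.sum_range_succ]
      have := en_le S h (k + 1)
      linarith
  have h2 : ∀ k : ℕ, ((k : ℝ) + 1) * en S h k ≤ ∑ i ∈ Finset.range (k + 1), en S h i := by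
    intro k
    have h3 : ∀ i ≤ k, en S h k ≤ en S h i := by
      intro i hi
      induction k, hi using Nat.le_induction with
      | base => exact le_rfl
      | succ k _ ih => exact (en_anti S h k).trans ih
    calc ((k : ℝ) + 1) * en S h k = ∑ _i ∈ Finset.range (k + 1), en S h k := by
          rw [Finset.sum_const, Finset.card_range, nsmul_eq_mul]
          push_cast
          ring
      _ ≤ _ := Finset.sum_le_sum fun i hi => h3 i (by have := Finset.mem_range.1 hi; omega)
  have h3 := h1 k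
  have h4 := mom_sq_nonneg S h (ll ^ (k + 1))
  have h5 := h2 k
  linarith

/-- The lazy operator is a contraction. -/
theorem ip_ll_le (S : Finset G) (k : ℕ) (h : Ω →₀ ℝ) :
    ip (aeval (avg S) (ll ^ k) h) (aeval (avg S) (ll ^ k) h) ≤ ip h h := by
  rw [← mom_mul]
  induction k with
  | zero => simp [mom]
  | succ k ih =>
    have h1 := en_le S h k
    have h2 : 0 ≤ en S h k := by
      have e : (1 - ll) * (ll ^ k * ll ^ k) = (1 - ll) * (ll ^ k * ll ^ k) := rfl
      have h3 := mom_C_mul S h (1 / 2) ((1 - X) * (ll ^ k * ll ^ k))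
      rw [← mul_assoc, ← one_sub_ll] at h3
      have h4 : 0 ≤ mom S h ((1 - X) * (ll ^ k * ll ^ k)) := by
        have e : (1 - X) * (ll ^ k * ll ^ k) = ll ^ k * ll ^ k - ll ^ k * (X * ll ^ k) := by ring
        rw [e, mom_sub, mom_mul, mom_mul, aeval_mul_apply S X, aeval_X]
        have := two_ip_avg_le S (aeval (avg S) (ll ^ k) h) (aeval (avg S) (ll ^ k) h)
        linarith
      unfold en
      rw [h3]
      positivity
    linarith

/-- Return probabilities. -/
theorem ret_diag (S : Finset G) [Infinite Ω]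
    (hconn : ∀ x y : Ω, Relation.ReflTransGen (fun a b => ∃ s ∈ S, b = s • a ∨ a = s • b) x y)
    (k : ℕ) (x : Ω) :
    ip (aeval (avg S) (ll ^ k) (Finsupp.single x 1)) (aeval (avg S) (ll ^ k) (Finsupp.single x 1)) ≤
      4 * Real.sqrt (S.card / (k + 1)) := by
  set δ : Ω →₀ ℝ := Finsupp.single x 1 with hδ
  set h := aeval (avg S) (ll ^ k) δ with hh
  set f := aeval (avg S) (ll ^ k) h with hf
  set a := ip h h with ha
  have ha0 : 0 ≤ a := ip_self_nonneg h
  have hff : f = aeval (avg S) (ll ^ k * ll ^ k) δ := by rw [hf, hh, ← aeval_mul_apply]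
  have hfx : f x = a := by
    have h1 : ip f δ = f x := by rw [ip_comm, hδ, ip_single_left, one_mul]
    rw [← h1, hff, ip_aeval_mul]
  have hk : (0 : ℝ) < k + 1 := by positivity
  have hN : ip f f ≤ a := ip_ll_le S k h
  have hE : ip f f - ip (avg S f) f ≤ 2 * (a / (k + 1)) := by
    have h1 := en_bound S h k
    have h3 := mom_C_mul S h (1 / 2) ((1 - X) * (ll ^ k * ll ^ k))
    rw [← mul_assoc, ← one_sub_ll] at h3
    have h4 : mom S h ((1 - X) * (ll ^ k * ll ^ k)) = ip f f - ip (avg S f) f := by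
      have e : (1 - X) * (ll ^ k * ll ^ k) = ll ^ k * ll ^ k - ll ^ k * (X * ll ^ k) := by ring
      rw [e, mom_sub, mom_mul, mom_mul, aeval_mul_apply S X, aeval_X]
    rw [h4] at h3
    have h5 : en S h k ≤ a / (k + 1) := by
      rw [le_div_iff₀ hk]
      linarith
    unfold en at h5
    linarith
  have hnash := nash S hconn f x
  rw [hfx] at hnash
  have h1 : a ^ 4 ≤ 8 * S.card * (2 * (a / (k + 1))) * a := by
    refine hnash.trans ?_
    have := ip_self_nonneg f
    gcongr
  rcases eq_or_lt_of_le ha0 with h0 | h0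
  · rw [← h0]
    positivity
  · have h2 : a ^ 2 ≤ (4 * Real.sqrt (S.card / (k + 1))) ^ 2 := by
      rw [mul_pow, Real.sq_sqrt (by positivity)]
      have h3 : a ^ 2 * a ^ 2 ≤ (4 ^ 2 * (S.card / (k + 1))) * a ^ 2 := by
        calc a ^ 2 * a ^ 2 = a ^ 4 := by ring
          _ ≤ _ := h1
          _ = _ := by ring
      exact le_of_mul_le_mul_right h3 (by positivity)
    exact (abs_le_of_sq_le_sq' h2 (by positivity)).2

/-- All transition probabilities. -/
theorem ret_bound (S : Finset G) [Infinite Ω]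
    (hconn : ∀ x y : Ω, Relation.ReflTransGen (fun a b => ∃ s ∈ S, b = s • a ∨ a = s • b) x y)
    (k : ℕ) (x y : Ω) :
    aeval (avg S) (ll ^ (2 * k)) (Finsupp.single y 1) x ≤ 4 * Real.sqrt (S.card / (k + 1)) := by
  have h1 : aeval (avg S) (ll ^ (2 * k)) (Finsupp.single y (1 : ℝ)) x =
      ip (aeval (avg S) (ll ^ k) (Finsupp.single y 1))
        (aeval (avg S) (ll ^ k) (Finsupp.single x 1)) := by
    rw [← ip_aeval, ← aeval_mul_apply, ip_comm, ip_single_left, one_mul, two_mul, pow_add]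
  have hx := ret_diag S hconn k x
  have hy := ret_diag S hconn k y
  have h2 := two_ip_le (aeval (avg S) (ll ^ k) (Finsupp.single y 1))
    (aeval (avg S) (ll ^ k) (Finsupp.single x 1)) 1 one_pos
  rw [h1]
  linarith

/-- The Chebyshev coefficients. -/
theorem tt_coeff (S : Finset G) (j : ℕ) (x : Ω) (f : Ω →₀ ℝ) {c : ℝ} (hc : 0 ≤ c)
    (hf : ip f f ≤ c ^ 2) : |aeval (avg S) (tt j) f x| ≤ c := by
  classical
  have h1 : aeval (avg S) (tt j) f x ^ 2 ≤ c ^ 2 := by
    refine le_trans ?_ ((ip_tt_le S j f).trans hf)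
    rw [ip_self _ (insert x (aeval (avg S) (tt j) f).support) (Finset.subset_insert _ _)]
    exact Finset.single_le_sum (f := fun y => (aeval (avg S) (tt j) f y) ^ 2)
      (fun y _ => sq_nonneg _) (Finset.mem_insert_self _ _)
  exact abs_le_of_sq_le_sq h1 hc

end Op

end Pool.Agent.H32.Cov
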