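import Mathlib
import Pool.Agent.H32.Cov.Ret
import Pool.Agent.H32.Cov.Comb

/-!
Covers of a ball by cosets of subgroups of infinite index: the main estimate.
-/

set_option autoImplicit false

namespace Pool.Agent.H32.Cov

open Polynomial Pool.Agent.H7.Coset

/-- The Schreier graph of a generating set is connected. -/
theorem schreier {G : Type*} [Group G] (S : Finset G) (hS : Subgroup.closure (S : Set G) = ⊤)
    (H : Subgroup G) (x y : G ⧸ H) :
    Relation.ReflTransGen (fun a b => ∃ s ∈ S, b = s • a ∨ a = s • b) x y := by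
  set R : G ⧸ H → G ⧸ H → Prop := fun a b => ∃ s ∈ S, b = s • a ∨ a = s • b with hR
  have hsymm : ∀ a b, Relation.ReflTransGen R a b → Relation.ReflTransGen R b a := by
    intro a b hab
    induction hab with
    | refl => exact Relation.ReflTransGen.refl
    | tail _ hbc ih =>
      obtain ⟨s, hs, h⟩ := hbc
      exact Relation.ReflTransGen.head ⟨s, hs, h.symm⟩ ih
  have key : ∀ g : G, ∀ x : G ⧸ H, Relation.ReflTransGen R x (g • x) := by
    intro g
    have hg : g ∈ Subgroup.closure (S : Set G) := by rw [hS]; exact Subgroup.mem_top g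
    induction hg using Subgroup.closure_induction with
    | mem s hs =>
      intro x
      exact Relation.ReflTransGen.single ⟨s, hs, Or.inl rfl⟩
    | one =>
      intro x
      rw [one_smul]
    | mul a b _ _ ha hb =>
      intro x
      rw [mul_smul]
      exact (hb x).trans (ha (b • x))
    | inv a _ ha =>
      intro x
      have h := ha (a⁻¹ • x)
      rw [smul_inv_smul] at h
      exact hsymm _ _ h
  obtain ⟨g, rfl⟩ := MulAction.exists_smul_eq G x y
  exact key g x

section Mono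

variable {G : Type*} [Group G]

theorem avgG_mono (S : Finset G) {φ ψ : G → ℝ} (h : ∀ u, φ u ≤ ψ u) (u : G) :
    avgG S φ u ≤ avgG S ψ u := by
  change (1 / (2 * S.card : ℝ)) * ∑ s ∈ S, (φ (s * u) + φ (s⁻¹ * u)) ≤
    (1 / (2 * S.card : ℝ)) * ∑ s ∈ S, (ψ (s * u) + ψ (s⁻¹ * u))
  refine mul_le_mul_of_nonneg_left ?_ (by positivity)
  exact Finset.sum_le_sum fun s _ => add_le_add (h _) (h _)

theorem aeval_ll (S : Finset G) (φ : G → ℝ) (u : G) :
    aeval (avgG S) ll φ u = (φ u + avgG S φ u) / 2 := by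
  simp only [ll, map_mul, map_add, map_one, aeval_X, aeval_C, Module.End.mul_apply,
    LinearMap.add_apply, Module.End.one_apply, Module.algebraMap_end_apply, Pi.smul_apply,
    Pi.add_apply, smul_eq_mul]
  ring

theorem ll_mono (S : Finset G) (n : ℕ) {φ ψ : G → ℝ} (h : ∀ u, φ u ≤ ψ u) (u : G) :
    aeval (avgG S) (ll ^ n) φ u ≤ aeval (avgG S) (ll ^ n) ψ u := by
  induction n generalizing u with
  | zero => simpa using h u
  | succ n ih =>
    rw [pow_succ', map_mul, Module.End.mul_apply, Module.End.mul_apply, aeval_ll, aeval_ll]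
    have h1 := ih u
    have h2 := avgG_mono S ih u
    linarith

theorem ll_eval_one : (ll : ℝ[X]).eval 1 = 1 := by
  simp only [ll, eval_mul, eval_C, eval_add, eval_one, eval_X]
  norm_num

end Mono

theorem num_aux (s N : ℝ) (hs : 1 ≤ s) (hN : 1 ≤ N) :
    4 * Real.sqrt (s / (64 * s * N ^ 2)) = 1 / (2 * N) := by
  have hs0 : s ≠ 0 := by positivity
  have hN0 : N ≠ 0 := by positivity
  have h4 : s / (64 * s * N ^ 2) = (1 / (8 * N)) ^ 2 := by
    field_simp
    norm_num
  rw [h4, Real.sqrt_sq (by positivity)]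
  field_simp
  norm_num

section Main

variable {G : Type*} [Group G] {k : ℕ} (H : Fin k → Subgroup G) (Y : ∀ i, Finset (G ⧸ H i))

/-- The set of subgroups whose cosets contain `u`. -/
noncomputable def Pat (u : G) : Finset (Fin k) := by
  classical
  exact Finset.univ.filter fun i => (u : G ⧸ H i) ∈ Y i

theorem mem_Pat (u : G) (i : Fin k) : i ∈ Pat H Y u ↔ (u : G ⧸ H i) ∈ Y i := by
  classical
  simp [Pat]

/-- The indicator of the elements lying in the cosets for all `i ∈ J`. -/
noncomputable def FF (J : Finset (Fin k)) : G → ℝ := fun u => by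
  classical
  exact if J ⊆ Pat H Y u then 1 else 0

/-- The Chebyshev coefficients of `FF J`. -/
theorem FF_coeff (S : Finset G) (J : Finset (Fin k)) (j : ℕ) :
    |aeval (avgG S) (tt j) (FF H Y J) 1| ≤ ∏ i ∈ J, Real.sqrt (Y i).card := by
  classical
  set K : Subgroup G := ⨅ i ∈ J, H i with hK
  have hKle : ∀ i ∈ J, K ≤ H i := fun i hi => iInf₂_le i hi
  -- the set of all cosets of `K` inside
  let T : Set (G ⧸ K) := {z | ∀ i (hi : i ∈ J), Subgroup.quotientMapOfLE (hKle i hi) z ∈ Y i}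
  let emb : T → (∀ i : J, Y i) := fun z i =>
    ⟨Subgroup.quotientMapOfLE (hKle i i.2) z.1, z.2 i i.2⟩
  have hemb : Function.Injective emb := by
    rintro ⟨z, hz⟩ ⟨w, hw⟩ h
    induction z using QuotientGroup.induction_on with
    | H a =>
    induction w using QuotientGroup.induction_on with
    | H b =>
    rw [Subtype.mk.injEq, QuotientGroup.eq, hK, Subgroup.mem_iInf]
    intro i
    rw [Subgroup.mem_iInf]
    intro hi
    have h1 := congrFun h ⟨i, hi⟩
    rw [Subtype.mk.injEq] at h1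
    rw [Subgroup.quotientMapOfLE_apply_mk, Subgroup.quotientMapOfLE_apply_mk] at h1
    exact QuotientGroup.eq.1 h1
  have : Finite T := Finite.of_injective emb hemb
  have hTf : T.Finite := Set.toFinite T
  have hcard : hTf.toFinset.card ≤ ∏ i ∈ J, (Y i).card := by
    rw [← Nat.card_eq_card_finite_toFinset hTf]
    refine (Nat.card_le_card_of_injective emb hemb).trans ?_
    rw [Nat.card_pi]
    simp only [Nat.card_eq_fintype_card, Fintype.card_coe]
    rw [← Finset.prod_coe_sort J fun i => (Y i).card]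
  let f : (G ⧸ K) →₀ ℝ := Finsupp.onFinset hTf.toFinset (fun z => if z ∈ hTf.toFinset then 1 else 0)
    (fun z hz => by by_contra h; exact hz (if_neg h))
  have hf : ∀ z, f z = if z ∈ hTf.toFinset then 1 else 0 := fun z => rfl
  have hip : ip f f ≤ (∏ i ∈ J, Real.sqrt (Y i).card) ^ 2 := by
    rw [ip_self f hTf.toFinset Finsupp.support_onFinset_subset, ← Finset.prod_pow]
    have h1 : ∑ z ∈ hTf.toFinset, f z ^ 2 = hTf.toFinset.card := by
      rw [Finset.sum_congr rfl fun z hz => by rw [hf, if_pos hz]]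
      simp
    rw [h1, Finset.prod_congr rfl fun i _ => Real.sq_sqrt (by positivity : (0:ℝ) ≤ (Y i).card)]
    exact_mod_cast hcard
  have hFF : FF H Y J = orb ((1 : G) : G ⧸ K) f := by
    funext u
    change (if J ⊆ Pat H Y u then (1 : ℝ) else 0) = f (u • ((1 : G) : G ⧸ K))
    rw [hf, MulAction.Quotient.smul_coe, smul_eq_mul, mul_one]
    congr 1
    rw [Set.Finite.mem_toFinset]
    refine propext ⟨fun h i hi => ?_, fun h i hi => ?_⟩
    · rw [Subgroup.quotientMapOfLE_apply_mk]
      exact (mem_Pat H Y u i).1 (h hi)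
    · have := h i hi
      rw [Subgroup.quotientMapOfLE_apply_mk] at this
      exact (mem_Pat H Y u i).2 this
  rw [hFF, aeval_avgG_orb]
  exact tt_coeff S j _ f (Finset.prod_nonneg fun i _ => Real.sqrt_nonneg _) hip

/-- The truncated inclusion-exclusion function. -/
noncomputable def GG (m : ℕ) : G → ℝ :=
  ∑ J ∈ (Finset.univ : Finset (Fin k)).powerset,
    (if J.card ≤ m then (-1 : ℝ) ^ J.card else 0) • FF H Y J

theorem GG_apply (m : ℕ) (u : G) : GG H Y m u = VV m (Pat H Y u) := by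
  classical
  unfold GG VV
  simp only [Finset.sum_apply, Pi.smul_apply, smul_eq_mul]
  have h1 : ∀ J : Finset (Fin k), FF H Y J u = if J ⊆ Pat H Y u then 1 else 0 := fun J => rfl
  simp only [h1, mul_ite, mul_one, mul_zero]
  rw [← Finset.sum_filter]
  refine Finset.sum_congr ?_ fun _ _ => rfl
  ext J
  simp

theorem GG_coeff (S : Finset G) (m j : ℕ) : |aeval (avgG S) (tt j) (GG H Y m) 1| ≤
    EE (fun i => Real.sqrt (Y i).card) m Finset.univ := by
  unfold GG EE
  rw [map_sum]
  simp only [map_smul, Finset.sum_apply, Pi.smul_apply, smul_eq_mul]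
  refine (Finset.abs_sum_le_sum_abs _ _).trans (Finset.sum_le_sum fun J _ => ?_)
  rw [abs_mul]
  split_ifs
  · rw [abs_pow, abs_neg, abs_one, one_pow, one_mul]
    exact FF_coeff H Y S J j
  · simp

/-- The main estimate. -/
theorem core (S : Finset G) (hS : Subgroup.closure (S : Set G) = ⊤) (hH : ∀ i, (H i).index = 0)
    (r t : ℕ)
    (hc : ∀ l : List G, l.length ≤ r → (∀ x ∈ l, x ∈ S ∨ x⁻¹ ∈ S) →
      1 ≤ (Pat H Y l.prod).card ∧ (Pat H Y l.prod).card ≤ 2 * t) :
    (r : ℝ) ^ 2 ≤ 128 * S.card * ((∑ i, (Y i).card : ℕ) : ℝ) ^ 2 *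
      Real.log (4 * EE (fun i => Real.sqrt (Y i).card) (2 * t) Finset.univ) := by
  classical
  obtain ⟨N, hN⟩ : ∃ N : ℕ, N = ∑ i, (Y i).card := ⟨_, rfl⟩
  obtain ⟨W, hW⟩ : ∃ W : ℝ, W = EE (fun i => Real.sqrt (Y i).card) (2 * t) Finset.univ :=
    ⟨_, rfl⟩
  rw [← hN, ← hW]
  -- at least one coset
  obtain ⟨i₀, hi₀⟩ := Finset.card_pos.1 (hc [] (by simp) (by simp)).1
  rw [mem_Pat] at hi₀
  have hN1 : 1 ≤ N := by
    have h1 : 1 ≤ (Y i₀).card := Finset.card_pos.2 ⟨_, hi₀⟩
    rw [hN]
    exact h1.trans (Finset.single_le_sum (f := fun i => (Y i).card) (fun _ _ => Nat.zero_le _)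
      (Finset.mem_univ i₀))
  have hSne : S.Nonempty := by
    rw [Finset.nonempty_iff_ne_empty]
    rintro rfl
    rw [Finset.coe_empty, Subgroup.closure_empty] at hS
    have h1 := hH i₀
    have h2 : H i₀ = ⊤ := by
      rw [← hS]
      refine le_antisymm ?_ bot_le
      rw [hS]
      exact le_top
    rw [h2, Subgroup.index_top] at h1
    exact one_ne_zero h1
  have hS1 : 1 ≤ S.card := hSne.card_pos
  -- the time
  set q : ℕ := 64 * S.card * N ^ 2 - 1 with hq
  have hq1 : q + 1 = 64 * S.card * N ^ 2 := by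
    have : 1 ≤ 64 * S.card * N ^ 2 := Nat.mul_pos (by omega) (by positivity)
    omega
  have hq2 : 1 ≤ q := by
    have h1 : 1 * 1 ≤ S.card * N ^ 2 := Nat.mul_le_mul hS1 (Nat.one_le_pow _ _ hN1)
    have h2 : 64 * S.card * N ^ 2 = 64 * (S.card * N ^ 2) := by ring
    omega
  have hqR : (q : ℝ) + 1 = 64 * S.card * (N : ℝ) ^ 2 := by exact_mod_cast hq1
  have hNR : (1 : ℝ) ≤ N := by exact_mod_cast hN1
  have hSR : (1 : ℝ) ≤ S.card := by exact_mod_cast hS1
  -- lower bound
  have hlow : (1 : ℝ) / 2 ≤ aeval (avgG S) (ll ^ (2 * q)) (GG H Y (2 * t)) 1 := by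
    let ψ : G → ℝ := (fun _ => (1 : ℝ)) - ∑ i, ∑ y ∈ Y i,
      orb ((1 : G) : G ⧸ H i) (Finsupp.single y (1 : ℝ))
    have h1 : ∀ u, ψ u ≤ GG H Y (2 * t) u := by
      intro u
      rw [GG_apply]
      refine le_trans (le_of_eq ?_) (VV_ge t _)
      simp only [ψ, Pi.sub_apply, Finset.sum_apply]
      congr 1
      have h2 : ∀ i, ∑ y ∈ Y i, orb ((1 : G) : G ⧸ H i) (Finsupp.single y (1 : ℝ)) u =
          if (u : G ⧸ H i) ∈ Y i then 1 else 0 := by
        intro i
        have h3 : ∀ y, orb ((1 : G) : G ⧸ H i) (Finsupp.single y (1 : ℝ)) u =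
            if y = (u : G ⧸ H i) then 1 else 0 := by
          intro y
          change Finsupp.single y (1 : ℝ) (u • ((1 : G) : G ⧸ H i)) = _
          rw [MulAction.Quotient.smul_coe, smul_eq_mul, mul_one, Finsupp.single_apply]
        rw [Finset.sum_congr rfl fun y _ => h3 y, Finset.sum_ite_eq']
      rw [Finset.sum_congr rfl fun i _ => h2 i, Finset.sum_boole]
      rfl
    refine le_trans ?_ (ll_mono S (2 * q) h1 1)
    have h2 : aeval (avgG S) (ll ^ (2 * q)) ψ 1 = 1 - ∑ i, ∑ y ∈ Y i,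
        aeval (avg S) (ll ^ (2 * q)) (Finsupp.single y (1 : ℝ))
          ((1 : G) • ((1 : G) : G ⧸ H i)) := by
      simp only [ψ, map_sub, Pi.sub_apply, aeval_one S hSne, eval_pow, ll_eval_one, one_pow,
        map_sum, Finset.sum_apply, aeval_avgG_orb]
      rfl
    rw [h2]
    have h3 : ∀ i, ∀ y ∈ Y i, aeval (avg S) (ll ^ (2 * q)) (Finsupp.single y (1 : ℝ))
          ((1 : G) • ((1 : G) : G ⧸ H i)) ≤ 1 / (2 * N) := by
      intro i y _
      have hinf : Infinite (G ⧸ H i) := Subgroup.index_eq_zero_iff_infinite.1 (hH i)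
      refine (ret_bound S (schreier S hS (H i)) q _ _).trans ?_
      rw [hqR]
      exact (num_aux _ _ hSR hNR).le
    have h4 : ∑ i, ∑ y ∈ Y i, aeval (avg S) (ll ^ (2 * q)) (Finsupp.single y (1 : ℝ))
          ((1 : G) • ((1 : G) : G ⧸ H i)) ≤ 1 / 2 := by
      calc _ ≤ ∑ i, ∑ _y ∈ Y i, (1 : ℝ) / (2 * N) :=
            Finset.sum_le_sum fun i _ => Finset.sum_le_sum fun y hy => h3 i y hy
        _ = N * (1 / (2 * N)) := by
            simp only [Finset.sum_const, nsmul_eq_mul]
            rw [← Finset.sum_mul, hN]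
            push_cast
            rfl
        _ = 1 / 2 := by field_simp
    linarith
  -- upper bound
  obtain ⟨a, ha, hexp, htail⟩ := ll_expand (2 * q) r (by omega)
  have hvan : ∀ u, InBall S r u → GG H Y (2 * t) u = 0 := by
    rintro u ⟨l, hl, hl2, rfl⟩
    rw [GG_apply]
    exact VV_zero _ _ (hc l hl hl2).1 (hc l hl hl2).2
  have hup : aeval (avgG S) (ll ^ (2 * q)) (GG H Y (2 * t)) 1 ≤
      2 * Real.exp (-((r : ℝ) ^ 2 / (2 * q : ℕ))) * W := by
    rw [hexp, map_sum]
    simp only [LinearMap.sum_apply, Finset.sum_apply, map_mul, aeval_C, Module.End.mul_apply,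
      Module.algebraMap_end_apply, Pi.smul_apply, smul_eq_mul]
    have h1 : ∑ j ∈ Finset.range (2 * q + 1), a j * aeval (avgG S) (tt j) (GG H Y (2 * t)) 1 =
        ∑ j ∈ (Finset.range (2 * q + 1)).filter (fun j => r < j),
          a j * aeval (avgG S) (tt j) (GG H Y (2 * t)) 1 := by
      rw [Finset.sum_filter]
      refine Finset.sum_congr rfl fun j _ => ?_
      split_ifs with h
      · rfl
      · rw [aeval_vanish S r _ hvan (tt j) ((tt_natDegree j).trans (by omega)), mul_zero]
    rw [h1]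
    have hcoef : ∀ j, |aeval (avgG S) (tt j) (GG H Y (2 * t)) 1| ≤ W := fun j => by
      rw [hW]
      exact GG_coeff H Y S (2 * t) j
    have hW0 : 0 ≤ W := le_trans (abs_nonneg _) (hcoef 0)
    calc _ ≤ ∑ j ∈ (Finset.range (2 * q + 1)).filter (fun j => r < j), a j * W := by
          refine Finset.sum_le_sum fun j _ => mul_le_mul_of_nonneg_left ?_ (ha j)
          exact (le_abs_self _).trans (hcoef j)
      _ = (∑ j ∈ (Finset.range (2 * q + 1)).filter (fun j => r < j), a j) * W := by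
          rw [Finset.sum_mul]
      _ ≤ _ := mul_le_mul_of_nonneg_right htail hW0
  have h1 := hlow.trans hup
  have hWpos : 0 < W := by
    have := Real.exp_pos (-((r : ℝ) ^ 2 / (2 * q : ℕ)))
    by_contra hcon
    push Not at hcon
    have h2 : 2 * Real.exp (-((r : ℝ) ^ 2 / (2 * q : ℕ))) * W ≤ 0 :=
      mul_nonpos_of_nonneg_of_nonpos (by positivity) hcon
    linarith
  rw [Real.exp_neg] at h1
  have hE := Real.exp_pos ((r : ℝ) ^ 2 / (2 * q : ℕ))
  have h2 : Real.exp ((r : ℝ) ^ 2 / (2 * q : ℕ)) ≤ 4 * W := by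
    have h3 : 2 * (Real.exp ((r : ℝ) ^ 2 / (2 * q : ℕ)))⁻¹ * W =
      2 * W / Real.exp ((r : ℝ) ^ 2 / (2 * q : ℕ)) := by
        field_simp
    rw [h3, le_div_iff₀ hE] at h1
    linarith
  have h3 : (r : ℝ) ^ 2 / (2 * q : ℕ) ≤ Real.log (4 * W) := by
    rw [Real.le_log_iff_exp_le (by positivity)]
    exact h2
  have hqpos : (0 : ℝ) < (2 * q : ℕ) := by exact_mod_cast (by omega : 0 < 2 * q)
  rw [div_le_iff₀ hqpos] at h3
  have hlog : 0 ≤ Real.log (4 * W) := by
    by_contra hcon
    push Not at hcon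
    have h4 : Real.log (4 * W) * ((2 * q : ℕ) : ℝ) < 0 := mul_neg_of_neg_of_pos hcon hqpos
    have : (0 : ℝ) ≤ (r : ℝ) ^ 2 := sq_nonneg _
    linarith
  calc (r : ℝ) ^ 2 ≤ Real.log (4 * W) * (2 * q : ℕ) := h3
    _ ≤ Real.log (4 * W) * (128 * S.card * (N : ℝ) ^ 2) := by
        refine mul_le_mul_of_nonneg_left ?_ hlog
        push_cast
        linarith
    _ = _ := by ring

end Main

end Pool.Agent.H32.Cov
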