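import Mathlib
import Pool.Agent.H32.Cov.Main

/-!
Covers of balls by cosets of subgroups of infinite index: explicit consequences of the main
estimate.
-/

set_option autoImplicit false

namespace Pool.Agent.H32.Cov

theorem sqrt_nat_le (m : ℕ) : Real.sqrt m ≤ m := by
  rcases Nat.eq_zero_or_pos m with h0 | h0
  · subst h0
    simp
  · have h5 : (1 : ℝ) ≤ m := by exact_mod_cast h0
    rw [Real.sqrt_le_left (by positivity)]
    nlinarith

theorem one_add_sqrt_le (m : ℕ) : 1 + Real.sqrt m ≤ 2 ^ m := by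
  have h4 := sqrt_nat_le m
  have h5 : (m : ℝ) + 1 ≤ 2 ^ m := by exact_mod_cast Nat.lt_two_pow_self (n := m)
  linarith

theorem log_aux (N : ℕ) (hN1 : 1 ≤ N) (W : ℝ) (hW : 0 < W) (h : W ≤ 2 ^ N) :
    Real.log (4 * W) ≤ 270 / 128 * N := by
  have hNR : (1 : ℝ) ≤ N := by exact_mod_cast hN1
  have h5 : Real.log (4 * W) ≤ Real.log (2 ^ (N + 2)) := by
    refine Real.log_le_log (by positivity) ?_
    rw [pow_add]
    linarith
  rw [Real.log_pow] at h5
  push_cast at h5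
  have h6 := Real.log_two_lt_d9
  have h7 : 0 < Real.log 2 := Real.log_pos (by norm_num)
  nlinarith

theorem log_aux2 (h t N : ℕ) (E B : ℝ) (hE1 : 1 ≤ E) (hE : E ≤ (1 + B) ^ (2 * t)) (hB : 0 ≤ B)
    (hBN : B ≤ N) (ht : 2 * t ≤ h + 1) :
    Real.log (4 * E) ≤ Real.log 4 + ((h : ℝ) + 1) * Real.log (1 + (N : ℝ)) := by
  have hN0 : (0 : ℝ) ≤ N := by positivity
  have h3 : E ≤ (1 + (N : ℝ)) ^ (h + 1) := by
    refine hE.trans ?_
    calc (1 + B) ^ (2 * t) ≤ (1 + (N : ℝ)) ^ (2 * t) := by gcongr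
      _ ≤ (1 + (N : ℝ)) ^ (h + 1) := pow_le_pow_right₀ (by linarith) ht
  have h4 : (0 : ℝ) < 4 * E := by linarith
  have h5 : 4 * E ≤ 4 * (1 + (N : ℝ)) ^ (h + 1) := by linarith
  have h6 : (0 : ℝ) < 1 + (N : ℝ) := by linarith
  have h7 := Real.log_le_log h4 h5
  rw [Real.log_mul (by norm_num) (pow_pos h6 _).ne', Real.log_pow] at h7
  push_cast at h7
  exact h7

/-- All consequences together. -/
theorem all {G : Type*} [Group G] (S : Finset G)
    (hS : Subgroup.closure (S : Set G) = ⊤) (r k N : ℕ) (H : Fin k → Subgroup G)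
    (hH : ∀ i, (H i).index = 0) (Y : ∀ i, Finset (G ⧸ H i)) (hN : N = ∑ i, (Y i).card)
    (hc : ∀ l : List G, l.length ≤ r → (∀ x ∈ l, x ∈ S ∨ x⁻¹ ∈ S) →
      ∃ i, ((l.prod : G) : G ⧸ H i) ∈ Y i) :
    ((r : ℝ) ^ 2 ≤ 270 * S.card * (N : ℝ) ^ 3) ∧
    ((r : ℝ) ^ 2 ≤ 128 * S.card * (N : ℝ) ^ 2 *
      Real.log (4 * ∏ i, (1 + Real.sqrt (Y i).card))) ∧
    ((r : ℝ) ^ 2 ≤ 128 * S.card * (N : ℝ) ^ 2 *
      (Real.log 4 + k * Real.log (1 + Real.sqrt ((N : ℝ) / k)))) ∧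
    (∀ h : ℕ, (∀ l : List G, l.length ≤ r → (∀ x ∈ l, x ∈ S ∨ x⁻¹ ∈ S) →
        Nat.card {i : Fin k // ((l.prod : G) : G ⧸ H i) ∈ Y i} ≤ h) →
      (r : ℝ) ^ 2 ≤ 128 * S.card * (N : ℝ) ^ 2 *
        (Real.log 4 + ((h : ℝ) + 1) * Real.log (1 + (N : ℝ)))) := by
  classical
  have hpat : ∀ u : G, (Pat H Y u).card = Nat.card {i : Fin k // (u : G ⧸ H i) ∈ Y i} := by
    intro u
    rw [Nat.card_eq_fintype_card, Fintype.card_subtype]
    congr 1
  have hpos : ∀ l : List G, l.length ≤ r → (∀ x ∈ l, x ∈ S ∨ x⁻¹ ∈ S) →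
      1 ≤ (Pat H Y l.prod).card := by
    intro l hl hl2
    obtain ⟨i, hi⟩ := hc l hl hl2
    exact Finset.card_pos.2 ⟨i, (mem_Pat H Y _ i).2 hi⟩
  -- basic positivity
  have hN1 : 1 ≤ N := by
    obtain ⟨i, hi⟩ := hc [] (by simp) (by simp)
    have h1 : 1 ≤ (Y i).card := Finset.card_pos.2 ⟨_, hi⟩
    rw [hN]
    exact h1.trans (Finset.single_le_sum (f := fun i => (Y i).card) (fun _ _ => Nat.zero_le _)
      (Finset.mem_univ i))
  have hk : 0 < k := by
    obtain ⟨i, _⟩ := hc [] (by simp) (by simp)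
    exact lt_of_le_of_lt (Nat.zero_le _) i.2
  have hS0 : (0 : ℝ) ≤ S.card := by positivity
  have hb : ∀ i : Fin k, 0 ≤ Real.sqrt (Y i).card := fun i => Real.sqrt_nonneg _
  have hE1 : ∀ m, 1 ≤ EE (fun i => Real.sqrt (Y i).card) m (Finset.univ : Finset (Fin k)) := by
    intro m
    unfold EE
    refine le_trans ?_ (Finset.single_le_sum (f := fun J : Finset (Fin k) =>
      if J.card ≤ m then ∏ i ∈ J, Real.sqrt (Y i).card else 0) (fun J _ => ?_)
      (Finset.empty_mem_powerset _))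
    · simp
    · split_ifs
      · exact Finset.prod_nonneg fun i _ => hb i
      · exact le_rfl
  have hcore := fun t => core H Y S hS hH r t
  rw [← hN] at hcore
  -- (2)
  have h2 : (r : ℝ) ^ 2 ≤ 128 * S.card * (N : ℝ) ^ 2 *
      Real.log (4 * ∏ i, (1 + Real.sqrt (Y i).card)) := by
    refine (hcore k fun l hl hl2 => ⟨hpos l hl hl2, ?_⟩).trans ?_
    · refine (Finset.card_le_univ _).trans ?_
      rw [Fintype.card_fin]
      omega
    · refine mul_le_mul_of_nonneg_left (Real.log_le_log ?_ ?_) (by positivity)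
      · have := hE1 (2 * k)
        positivity
      · exact mul_le_mul_of_nonneg_left (EE_le_prod _ hb _ _) (by norm_num)
  have hprod1 : 0 < ∏ i, (1 + Real.sqrt (Y i).card) :=
    Finset.prod_pos fun i _ => by have := hb i; positivity
  have hsplit : Real.log (4 * ∏ i, (1 + Real.sqrt (Y i).card)) =
      Real.log 4 + Real.log (∏ i, (1 + Real.sqrt (Y i).card)) :=
    Real.log_mul (by norm_num) hprod1.ne'
  refine ⟨?_, h2, ?_, ?_⟩
  · -- (1)
    have h3 : ∏ i, (1 + Real.sqrt (Y i).card) ≤ 2 ^ N := by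
      rw [hN, ← Finset.prod_pow_eq_pow_sum]
      exact Finset.prod_le_prod (fun i _ => by have := hb i; positivity) fun i _ =>
        one_add_sqrt_le _
    have h6 := log_aux N hN1 _ hprod1 h3
    calc (r : ℝ) ^ 2 ≤ 128 * S.card * (N : ℝ) ^ 2 *
          Real.log (4 * ∏ i, (1 + Real.sqrt (Y i).card)) := h2
      _ ≤ 128 * S.card * (N : ℝ) ^ 2 * (270 / 128 * N) :=
          mul_le_mul_of_nonneg_left h6 (by positivity)
      _ = 270 * S.card * (N : ℝ) ^ 3 := by ring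
  · -- (3)
    refine h2.trans (mul_le_mul_of_nonneg_left ?_ (by positivity))
    rw [hsplit]
    have h3 := log_prod_le hk (fun i => (Y i).card)
    rw [← hN] at h3
    linarith
  · -- (4)
    intro h hh
    obtain ⟨t, ht1, ht2⟩ : ∃ t : ℕ, h ≤ 2 * t ∧ 2 * t ≤ h + 1 := ⟨(h + 1) / 2, by omega, by omega⟩
    refine (hcore t fun l hl hl2 => ⟨hpos l hl hl2, ?_⟩).trans ?_
    · rw [hpat]
      exact (hh l hl hl2).trans ht1
    · refine mul_le_mul_of_nonneg_left ?_ (by positivity)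
      have h4 : ∑ i, Real.sqrt (Y i).card ≤ N := by
        rw [hN]
        push_cast
        exact Finset.sum_le_sum fun i _ => sqrt_nat_le _
      have h5 : 0 ≤ ∑ i, Real.sqrt (Y i).card := Finset.sum_nonneg fun i _ => hb i
      exact log_aux2 h t N _ _ (hE1 (2 * t)) (EE_le _ hb _ _) h5 h4 ht2

end Pool.Agent.H32.Cov
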