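import Mathlib
import Pool.Agent.H32.Cov.Main

/-!
Isoperimetry and covers by cosets of subgroups of infinite index: a finite set with small boundary
meets such a coset in a small part.
-/

set_option autoImplicit false

namespace Pool.Agent.H32.Cov

open Pool.Agent.H7.Coset

section Iso

variable {G : Type*} [Group G] [DecidableEq G]

/-- The part of `F` which leaves `F` under `s`. -/
def bdry (F : Finset G) (s : G) : Finset G := F.filter fun u => s * u ∉ F

/-- A finitely supported function on an infinite connected graph is bounded by its total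
variation. -/
theorem le_variation {Ω : Type*} [MulAction G Ω] [Infinite Ω] (S : Finset G)
    (hconn : ∀ x y : Ω, Relation.ReflTransGen (fun a b => ∃ s ∈ S, b = s • a ∨ a = s • b) x y)
    (f : Ω → ℝ) (T : Finset Ω) (hT : ∀ z, z ∉ T → f z = 0) (U : Finset Ω)
    (hU : ∀ s ∈ S, ∀ z, z ∉ U → f (s • z) = f z) (x : Ω) :
    f x ≤ ∑ s ∈ S, ∑ z ∈ U, |f (s • z) - f z| := by
  classical
  obtain ⟨z, hz⟩ := Infinite.exists_notMem_finset T
  obtain ⟨n, p, h0, hn, hp, hinj⟩ := exists_minimal_path _ {z | f z = 0} x
    ⟨z, hT z hz, hconn x z⟩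
  have hinj' : ∀ i j, i ≤ n → j ≤ n → p i = p j → i = j := by
    intro i j hi hj h
    rcases lt_trichotomy i j with h1 | h1 | h1
    · exact absurd h (hinj i j h1 hj)
    · exact h1
    · exact absurd h.symm (hinj j i h1 hi)
  choose! s hs hsp using hp
  let b : ℕ → Ω := fun i => if p (i + 1) = s i • p i then p i else p (i + 1)
  have hb : ∀ i < n, |f (p i) - f (p (i + 1))| = |f (s i • b i) - f (b i)| := by
    intro i hi
    by_cases h : p (i + 1) = s i • p i
    · simp only [b, if_pos h]
      rw [← h, abs_sub_comm]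
    · have h1 : p i = s i • p (i + 1) := (hsp i hi).resolve_left h
      simp only [b, if_neg h]
      rw [← h1]
  have hbmem : ∀ i < n, (b i = p i ∧ s i • b i = p (i + 1)) ∨
      (b i = p (i + 1) ∧ s i • b i = p i) := by
    intro i hi
    by_cases h : p (i + 1) = s i • p i
    · left
      simp only [b, if_pos h, h, and_self]
    · right
      have h1 : p i = s i • p (i + 1) := (hsp i hi).resolve_left h
      simp only [b, if_neg h, ← h1, and_self]
  have hbinj : ∀ i < n, ∀ j < n, s i = s j → b i = b j → i = j := by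
    intro i hi j hj h1 h2
    have h3 : s i • b i = s j • b j := by rw [h1, h2]
    rcases hbmem i hi with ⟨a1, a2⟩ | ⟨a1, a2⟩ <;> rcases hbmem j hj with ⟨b1, b2⟩ | ⟨b1, b2⟩
    · exact hinj' i j hi.le hj.le (by rw [← a1, ← b1, h2])
    · have e1 := hinj' i (j + 1) hi.le hj (by rw [← a1, ← b1, h2])
      have e2 := hinj' (i + 1) j hi hj.le (by rw [← a2, ← b2, h3])
      omega
    · have e1 := hinj' (i + 1) j hi hj.le (by rw [← a1, ← b1, h2])
      have e2 := hinj' i (j + 1) hi.le hj (by rw [← a2, ← b2, h3])
      omega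
    · exact hinj' i j hi.le hj.le (by rw [← a2, ← b2, h3])
  have htel : f x = ∑ i ∈ Finset.range n, (f (p i) - f (p (i + 1))) := by
    rw [Finset.sum_range_sub']
    have h2 : f (p n) = 0 := hn
    rw [h0, h2, sub_zero]
  calc f x = ∑ i ∈ Finset.range n, (f (p i) - f (p (i + 1))) := htel
    _ ≤ ∑ i ∈ Finset.range n, |f (s i • b i) - f (b i)| := by
        refine Finset.sum_le_sum fun i hi => ?_
        rw [← hb i (Finset.mem_range.1 hi)]
        exact le_abs_self _
    _ = ∑ i ∈ (Finset.range n).filter (fun i => b i ∈ U), |f (s i • b i) - f (b i)| := by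
        rw [Finset.sum_filter]
        refine Finset.sum_congr rfl fun i hi => ?_
        split_ifs with h
        · rfl
        · rw [hU _ (hs i (Finset.mem_range.1 hi)) _ h, sub_self, abs_zero]
    _ = ∑ q ∈ ((Finset.range n).filter (fun i => b i ∈ U)).image (fun i => (s i, b i)),
          |f (q.1 • q.2) - f q.2| := by
        rw [Finset.sum_image]
        intro i hi j hj hij
        rw [Prod.mk.injEq] at hij
        have hi' := Finset.mem_range.1 (Finset.mem_filter.1 hi).1
        have hj' := Finset.mem_range.1 (Finset.mem_filter.1 hj).1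
        exact hbinj i hi' j hj' hij.1 hij.2
    _ ≤ ∑ q ∈ S ×ˢ U, |f (q.1 • q.2) - f q.2| := by
        refine Finset.sum_le_sum_of_subset_of_nonneg ?_ fun _ _ _ => abs_nonneg _
        intro q hq
        obtain ⟨i, hi, rfl⟩ := Finset.mem_image.1 hq
        rw [Finset.mem_filter] at hi
        exact Finset.mem_product.2 ⟨hs i (Finset.mem_range.1 hi.1), hi.2⟩
    _ = _ := Finset.sum_product _ _ _

/-- A finite set meets a coset of a subgroup of infinite index in at most twice its boundary. -/
theorem card_coset_le (S : Finset G) (hS : Subgroup.closure (S : Set G) = ⊤) (F : Finset G)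
    (H : Subgroup G) (hH : H.index = 0) (g : G) (A : Finset G)
    (hA : ∀ u ∈ A, u ∈ F ∧ g⁻¹ * u ∈ H) :
    A.card ≤ 2 * ∑ s ∈ S, (bdry F s).card := by
  classical
  have hinf : Infinite (G ⧸ H) := Subgroup.index_eq_zero_iff_infinite.1 hH
  let f : G ⧸ H → ℝ := fun z => ((F.filter fun u => ((u : G) : G ⧸ H) = z).card : ℝ)
  let T : Finset (G ⧸ H) := F.image fun u => ((u : G) : G ⧸ H)
  let U : Finset (G ⧸ H) := T ∪ (S ×ˢ T).image fun q => q.1⁻¹ • q.2
  have hT : ∀ z, z ∉ T → f z = 0 := by
    intro z hz
    simp only [f]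
    rw [Nat.cast_eq_zero, Finset.card_eq_zero, Finset.filter_eq_empty_iff]
    intro u hu h
    exact hz (Finset.mem_image.2 ⟨u, hu, h⟩)
  have hU : ∀ s ∈ S, ∀ z, z ∉ U → f (s • z) = f z := by
    intro s hs z hz
    rw [hT z fun h => hz (Finset.mem_union_left _ h), hT (s • z)]
    intro h
    exact hz (Finset.mem_union_right _ (Finset.mem_image.2
      ⟨(s, s • z), Finset.mem_product.2 ⟨hs, h⟩, inv_smul_smul s z⟩))
  have h1 := le_variation S (schreier S hS H) f T hT U hU ((g : G) : G ⧸ H)
  have h2 : (A.card : ℝ) ≤ f ((g : G) : G ⧸ H) := by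
    simp only [f]
    rw [Nat.cast_le]
    refine Finset.card_le_card fun u hu => ?_
    rw [Finset.mem_filter]
    refine ⟨(hA u hu).1, ?_⟩
    rw [eq_comm, QuotientGroup.eq]
    exact (hA u hu).2
  -- the variation along one generator
  have h3 : ∀ s ∈ S, ∑ z ∈ U, |f (s • z) - f z| ≤ 2 * (bdry F s).card := by
    intro s _
    -- points of F leaving, points of F not hit
    let P : Finset G := F.filter fun u => s * u ∉ F
    let Q : Finset G := F.filter fun u => s⁻¹ * u ∉ F
    have hPQ : Q.card = P.card := by
      have e1 : (F.filter fun u => s * u ∈ F).card = (F.filter fun u => s⁻¹ * u ∈ F).card := by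
        refine Finset.card_bij (fun u _ => s * u) ?_ ?_ ?_
        · intro u hu
          rw [Finset.mem_filter] at hu ⊢
          exact ⟨hu.2, by rw [inv_mul_cancel_left]; exact hu.1⟩
        · intro u _ v _ h
          exact mul_left_cancel h
        · intro v hv
          rw [Finset.mem_filter] at hv
          exact ⟨s⁻¹ * v, Finset.mem_filter.2 ⟨hv.2, by rw [mul_inv_cancel_left]; exact hv.1⟩,
            mul_inv_cancel_left s v⟩
      have e2 := Finset.card_filter_add_card_filter_not (s := F) (fun u => s * u ∈ F)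
      have e3 := Finset.card_filter_add_card_filter_not (s := F) (fun u => s⁻¹ * u ∈ F)
      simp only [P, Q]
      omega
    have hz : ∀ z : G ⧸ H, |f (s • z) - f z| ≤
        ((Q.filter fun u => ((u : G) : G ⧸ H) = s • z).card : ℝ) +
          ((P.filter fun u => ((u : G) : G ⧸ H) = z).card : ℝ) := by
      intro z
      -- split both fibres
      have a1 : (F.filter fun u => ((u : G) : G ⧸ H) = s • z).card =
          ((F.filter fun u => s⁻¹ * u ∈ F).filter fun u => ((u : G) : G ⧸ H) = s • z).card +
          (Q.filter fun u => ((u : G) : G ⧸ H) = s • z).card := by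
        have := Finset.card_filter_add_card_filter_not
          (s := F.filter fun u => ((u : G) : G ⧸ H) = s • z) (fun u => s⁻¹ * u ∈ F)
        rw [Finset.filter_comm, Finset.filter_comm (s := F) (p := fun u => ((u : G) : G ⧸ H) = s • z)
          (q := fun u => s⁻¹ * u ∉ F)] at this
        simp only [Q]
        omega
      have a2 : (F.filter fun u => ((u : G) : G ⧸ H) = z).card =
          ((F.filter fun u => s * u ∈ F).filter fun u => ((u : G) : G ⧸ H) = z).card +
          (P.filter fun u => ((u : G) : G ⧸ H) = z).card := by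
        have := Finset.card_filter_add_card_filter_not
          (s := F.filter fun u => ((u : G) : G ⧸ H) = z) (fun u => s * u ∈ F)
        rw [Finset.filter_comm, Finset.filter_comm (s := F) (p := fun u => ((u : G) : G ⧸ H) = z)
          (q := fun u => s * u ∉ F)] at this
        simp only [P]
        omega
      have a3 : ((F.filter fun u => s * u ∈ F).filter fun u => ((u : G) : G ⧸ H) = z).card =
          ((F.filter fun u => s⁻¹ * u ∈ F).filter fun u => ((u : G) : G ⧸ H) = s • z).card := by
        refine Finset.card_bij (fun u _ => s * u) ?_ ?_ ?_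
        · intro u hu
          rw [Finset.mem_filter, Finset.mem_filter] at hu ⊢
          refine ⟨⟨hu.1.2, by rw [inv_mul_cancel_left]; exact hu.1.1⟩, ?_⟩
          rw [← hu.2, MulAction.Quotient.smul_coe, smul_eq_mul]
        · intro u _ v _ h
          exact mul_left_cancel h
        · intro v hv
          rw [Finset.mem_filter, Finset.mem_filter] at hv
          refine ⟨s⁻¹ * v, ?_, mul_inv_cancel_left s v⟩
          rw [Finset.mem_filter, Finset.mem_filter]
          refine ⟨⟨hv.1.2, by rw [mul_inv_cancel_left]; exact hv.1.1⟩, ?_⟩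
          have : (((s⁻¹ * v : G)) : G ⧸ H) = s⁻¹ • ((v : G) : G ⧸ H) := by
            rw [MulAction.Quotient.smul_coe, smul_eq_mul]
          rw [this, hv.2, inv_smul_smul]
      have b1 : f (s • z) = (((F.filter fun u => s⁻¹ * u ∈ F).filter
          fun u => ((u : G) : G ⧸ H) = s • z).card : ℝ) +
          ((Q.filter fun u => ((u : G) : G ⧸ H) = s • z).card : ℝ) := by
        simp only [f]
        rw [a1]
        push_cast
        rfl
      have b2 : f z = (((F.filter fun u => s⁻¹ * u ∈ F).filter
          fun u => ((u : G) : G ⧸ H) = s • z).card : ℝ) +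
          ((P.filter fun u => ((u : G) : G ⧸ H) = z).card : ℝ) := by
        simp only [f]
        rw [a2, a3]
        push_cast
        rfl
      have c1 : (0 : ℝ) ≤ ((Q.filter fun u => ((u : G) : G ⧸ H) = s • z).card : ℝ) :=
        Nat.cast_nonneg _
      have c2 : (0 : ℝ) ≤ ((P.filter fun u => ((u : G) : G ⧸ H) = z).card : ℝ) :=
        Nat.cast_nonneg _
      rw [abs_le]
      constructor <;> linarith
    have hfib : ∀ (W : Finset G) (j : G ⧸ H → G ⧸ H), Function.Injective j →
        ∑ z ∈ U, ((W.filter fun u => ((u : G) : G ⧸ H) = j z).card : ℝ) ≤ W.card := by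
      intro W j hj
      rw [← Nat.cast_sum, Nat.cast_le, ← Finset.card_biUnion]
      · refine Finset.card_le_card fun u hu => ?_
        obtain ⟨z, _, hz⟩ := Finset.mem_biUnion.1 hu
        exact (Finset.mem_filter.1 hz).1
      · intro z _ w _ hzw
        rw [Function.onFun, Finset.disjoint_left]
        intro u hu hu'
        exact hzw (hj ((Finset.mem_filter.1 hu).2.symm.trans (Finset.mem_filter.1 hu').2))
    calc ∑ z ∈ U, |f (s • z) - f z|
        ≤ ∑ z ∈ U, (((Q.filter fun u => ((u : G) : G ⧸ H) = s • z).card : ℝ) +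
          ((P.filter fun u => ((u : G) : G ⧸ H) = z).card : ℝ)) :=
          Finset.sum_le_sum fun z _ => hz z
      _ ≤ (Q.card : ℝ) + P.card := by
          rw [Finset.sum_add_distrib]
          exact add_le_add (hfib Q (fun z => s • z) (MulAction.injective s))
            (hfib P (fun z => z) fun _ _ h => h)
      _ = 2 * (bdry F s).card := by
          rw [hPQ]
          simp only [P, bdry]
          ring
  have h4 : (A.card : ℝ) ≤ 2 * ∑ s ∈ S, ((bdry F s).card : ℝ) := by
    refine h2.trans (h1.trans ?_)
    rw [Finset.mul_sum]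
    exact Finset.sum_le_sum h3
  exact_mod_cast h4

/-- The covering bound. -/
theorem iso_cover (S : Finset G) (hS : Subgroup.closure (S : Set G) = ⊤) (F : Finset G)
    (n : ℕ) (g : Fin n → G) (H : Fin n → Subgroup G) (hH : ∀ i, (H i).index = 0)
    (hc : ∀ u ∈ F, ∃ i, (g i)⁻¹ * u ∈ H i) :
    F.card ≤ 2 * n * ∑ s ∈ S, (bdry F s).card := by
  classical
  have h1 : F ⊆ (Finset.univ : Finset (Fin n)).biUnion
      fun i => F.filter fun u => (g i)⁻¹ * u ∈ H i := by
    intro u hu
    obtain ⟨i, hi⟩ := hc u hu
    exact Finset.mem_biUnion.2 ⟨i, Finset.mem_univ _, Finset.mem_filter.2 ⟨hu, hi⟩⟩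
  calc F.card ≤ _ := Finset.card_le_card h1
    _ ≤ ∑ i, (F.filter fun u => (g i)⁻¹ * u ∈ H i).card := Finset.card_biUnion_le
    _ ≤ ∑ _i : Fin n, 2 * ∑ s ∈ S, (bdry F s).card :=
        Finset.sum_le_sum fun i _ => card_coset_le S hS F (H i) (hH i) (g i) _
          fun u hu => Finset.mem_filter.1 hu
    _ = _ := by
        rw [Finset.sum_const, Finset.card_univ, Fintype.card_fin, smul_eq_mul]
        ring

end Iso

end Pool.Agent.H32.Cov
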